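import Pool.Agent.Helper17.BRG.Gg

/-!
# Project BR, block GLOB: the primitive
-/

set_option autoImplicit false

namespace Pool.Agent.Helper17.BRG

open Pool.Agent.Helper17.BC
open Pool.Agent.Helper17.BR (d_self d_comm d_tri d_nonneg d_mul rho_nonneg dg_neg)
open Pool.Agent.Helper11.BR (GP R1 Sys Neck GlobGeo)

variable {G : Type} [Group G] [TopologicalSpace G] {Γ : R1 G}

variable {N : ℕ} {Sy : Sys Γ N} (G0 : GlobGeo Γ) (K : Neck Sy)

/-- the value at `z` of the function of `C'`, seen from the first point of `C'` -/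
noncomputable def fg (C : List G) (z : G) : ℝ := gg G0 K C (C.headD 1) z

theorem fg_inv (h : G) (C : List G) (hC : C ≠ []) (hl : C.length + 1 = N) (z : G) :
    fg G0 K (C.map (h * ·)) (h * z) = fg G0 K C z := by
  obtain ⟨x, C, rfl⟩ := List.exists_cons_of_ne_nil hC
  exact gg_inv G0 K h x z (x :: C) hl

theorem fg_gg : ∃ K₀ : ℝ, ∀ (s t : G) (C : List G), Γ.Generic C →
    C.length + 1 = N → |fg G0 K C t - fg G0 K C s - gg G0 K C s t| ≤ K₀ := by
  obtain ⟨K₂, hK₂⟩ := gg_tri G0 K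
  refine ⟨K₂, fun s t C hC hl => ?_⟩
  have h3 := abs_le.1 (hK₂ (C.headD 1) s t C hC hl)
  have h4 := gg_anti G0 K C (C.headD 1) t
  unfold fg
  rw [abs_le]
  constructor <;> linarith

/-- the error -/
noncomputable def E (C : List G) (s t : G) : ℝ :=
  Sy.F (C.map GP.int) s t - dl (fun C' => fg G0 K C' t - fg G0 K C' s) C

theorem E_bound : ∃ K₀ : ℝ, ∀ (s t : G) (C : List G), Γ.Generic C →
    C.length = N → |E G0 K C s t| ≤ K₀ := by
  obtain ⟨K₁, hK₁⟩ := fg_gg G0 K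
  refine ⟨2 ^ N * K.K + Sy.C + N * K₁, fun s t C hC hl => ?_⟩
  have h1 := abs_le.1 (gg_neck G0 K C hC hl s t)
  have h2 := dl_bound (fun C' => fg G0 K C' t - fg G0 K C' s - gg G0 K C' s t) C (K := K₁)
    fun D' h3 h4 => hK₁ s t D' (gen_sublist hC h4) (h3.trans hl)
  rw [dl_sub (fun C' => fg G0 K C' t - fg G0 K C' s) (fun C' => gg G0 K C' s t), hl] at h2
  have h2 := abs_le.1 h2
  unfold E
  rw [abs_le]
  constructor <;> linarith

theorem E_add (C : List G) (hl : C.length = N) (s t u : G) :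
    E G0 K C s t + E G0 K C t u = E G0 K C s u := by
  have h1 := Sy.F_add (C.map GP.int) s t u (by rwa [List.length_map])
  have h2 : dl (fun C' => fg G0 K C' t - fg G0 K C' s) C +
      dl (fun C' => fg G0 K C' u - fg G0 K C' t) C = dl (fun C' => fg G0 K C' u - fg G0 K C' s) C := by
    rw [← dl_add]
    refine dl_congr fun D' _ _ => ?_
    ring
  unfold E
  linarith

theorem E_dl (Y : List G) (hl : Y.length = N + 1) (s t : G) :
    dl (fun C => E G0 K C s t) Y = Sy.f0 s (Y.map GP.int) - Sy.f0 t (Y.map GP.int) := by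
  have h1 := Sy.F_bd (Y.map GP.int) s t (by rwa [List.length_map])
  rw [dl_eq, ← dl_map] at h1
  unfold E
  rw [dl_sub (fun C => Sy.F (C.map GP.int) s t), h1,
    dl_dl (fun C' => fg G0 K C' t - fg G0 K C' s), sub_zero]

theorem E_inv (hN : 2 ≤ N) (h : G) (C : List G) (hl : C.length = N) (s t : G) :
    E G0 K (C.map (h * ·)) (h * s) (h * t) = E G0 K C s t := by
  unfold E
  have h1 := Sy.F_inv h (C.map GP.int) s t
  rw [List.map_map] at h1
  rw [List.map_map, ← dl_map (h * ·) (fun C' => fg G0 K C' (h * t) - fg G0 K C' (h * s))]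
  have e1 : (GP.int ∘ fun x => h * x) = (fun x : GP G => h • x) ∘ GP.int := rfl
  rw [e1, h1]
  congr 1
  refine dl_congr fun D' h2 _ => ?_
  have h3 : D' ≠ [] := by
    rintro rfl
    rw [List.length_nil] at h2
    omega
  rw [fg_inv G0 K h D' h3 (by omega), fg_inv G0 K h D' h3 (by omega)]

/-- the primitive -/
noncomputable def psi : List G → ℝ
  | y₁ :: y₂ :: R => Sy.f0 y₁ ((y₁ :: y₂ :: R).map GP.int) + E G0 K (y₂ :: R) y₂ y₁
  | _ => 0

theorem psi_dl (W : List G) (hl : W.length = N + 2) (hN : 2 ≤ N) :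
    dl (psi G0 K) W = Sy.fW (W.map GP.int) := by
  obtain ⟨w₁, W, rfl⟩ := List.exists_cons_of_length_eq_add_one hl
  obtain ⟨w₂, W, rfl⟩ := List.exists_cons_of_length_eq_add_one (n := N) (by simpa using hl)
  obtain ⟨w₃, W, rfl⟩ := List.exists_cons_of_length_eq_add_one (n := N - 1) (l := W)
    (by simp only [List.length_cons] at hl; omega)
  have hl' : (w₃ :: W).length = N := by
    simp only [List.length_cons] at hl ⊢
    omega
  set T : List G := w₃ :: W with hT
  have e1 : dl (psi G0 K) (w₁ :: w₂ :: T) = psi G0 K (w₂ :: T) - (psi G0 K (w₁ :: T) -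
      dl (fun D' => psi G0 K (w₁ :: w₂ :: D')) T) := rfl
  have e2 : psi G0 K (w₂ :: T) = Sy.f0 w₂ ((w₂ :: T).map GP.int) +
      E G0 K T w₃ w₂ := rfl
  have e3 : psi G0 K (w₁ :: T) = Sy.f0 w₁ ((w₁ :: T).map GP.int) +
      E G0 K T w₃ w₁ := rfl
  have e4 : dl (fun D' => psi G0 K (w₁ :: w₂ :: D')) T =
      dl (fun D' : List G => Sy.f0 w₁ ((w₁ :: w₂ :: D').map GP.int)) T +
      dl (fun D' => E G0 K (w₂ :: D') w₂ w₁) T := dl_add _ _ T
  have e5 := Sy.f0_bd w₁ ((w₁ :: w₂ :: T).map GP.int) (by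
    rw [List.length_map, List.length_cons, List.length_cons, hl'])
  rw [dl_eq, ← dl_map] at e5
  have e6 : dl (fun D' : List G => Sy.f0 w₁ (D'.map GP.int)) (w₁ :: w₂ :: T) =
      Sy.f0 w₁ ((w₂ :: T).map GP.int) - (Sy.f0 w₁ ((w₁ :: T).map GP.int) -
      dl (fun D' : List G => Sy.f0 w₁ ((w₁ :: w₂ :: D').map GP.int)) T) := rfl
  have e7 := E_dl G0 K (w₂ :: T) (by rw [List.length_cons, hl']) w₂ w₁
  have e8 : dl (fun C => E G0 K C w₂ w₁) (w₂ :: T) = E G0 K T w₂ w₁ -
      dl (fun D' => E G0 K (w₂ :: D') w₂ w₁) T := rfl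
  have e9 := E_add G0 K T hl' w₃ w₂ w₁
  linarith

/-- **Block GLOB**, with the primitive. -/
theorem main_psi (G0 : GlobGeo Γ) (hN : 2 ≤ N) (Sy : Sys Γ N) (K : Neck Sy) :
    ∃ (M : ℝ), (∀ Y, Γ.Generic Y → Y.length = N + 1 →
        |if Y.length = N + 1 then psi G0 K Y else 0| ≤ M) ∧
      (∀ (g : G) Y, (if (Y.map (g * ·)).length = N + 1 then psi G0 K (Y.map (g * ·)) else 0) =
        if Y.length = N + 1 then psi G0 K Y else 0) ∧
      ∀ W, Γ.Generic W → W.length = N + 2 →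
        Helper11.BC.dl (fun Y => if Y.length = N + 1 then psi G0 K Y else 0) W =
          Sy.fW (W.map GP.int) := by
  obtain ⟨K₁, hK₁⟩ := E_bound G0 K
  refine ⟨Sy.C + K₁, fun Y hY hl => ?_, fun g Y => ?_, fun W _ hl => ?_⟩
  · show |if Y.length = N + 1 then psi G0 K Y else 0| ≤ Sy.C + K₁
    rw [if_pos hl]
    obtain ⟨y₁, Y, rfl⟩ := List.exists_cons_of_length_eq_add_one hl
    obtain ⟨y₂, Y, rfl⟩ := List.exists_cons_of_length_eq_add_one (n := N - 1) (l := Y)
      (by simp only [List.length_cons] at hl; omega)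
    refine (abs_add_le _ _).trans (add_le_add (Sy.f0_bdd _ _ (by rwa [List.length_map]))
      (hK₁ _ _ _ (gen_sublist hY (List.sublist_cons_self _ _)) ?_))
    simpa using hl
  · show (if (Y.map (g * ·)).length = N + 1 then psi G0 K (Y.map (g * ·)) else 0) =
      if Y.length = N + 1 then psi G0 K Y else 0
    rw [List.length_map]
    by_cases hl : Y.length = N + 1
    swap
    · rw [if_neg hl, if_neg hl]
    rw [if_pos hl, if_pos hl]
    obtain ⟨y₁, Y, rfl⟩ := List.exists_cons_of_length_eq_add_one hl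
    obtain ⟨y₂, Y, rfl⟩ := List.exists_cons_of_length_eq_add_one (n := N - 1) (l := Y)
      (by simp only [List.length_cons] at hl; omega)
    have e1 := Sy.f0_inv g y₁ ((y₁ :: y₂ :: Y).map GP.int)
    rw [List.map_map] at e1
    have e2 := E_inv G0 K hN g (y₂ :: Y) (by simpa using hl) y₂ y₁
    have e3 : psi G0 K ((y₁ :: y₂ :: Y).map (g * ·)) =
        Sy.f0 (g * y₁) (((y₁ :: y₂ :: Y).map (g * ·)).map GP.int) +
        E G0 K ((y₂ :: Y).map (g * ·)) (g * y₂) (g * y₁) := rfl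
    rw [e3, e2, List.map_map]
    have e4 : (GP.int ∘ fun x => g * x) = (fun x : GP G => g • x) ∘ GP.int := rfl
    rw [e4, e1]
    rfl
  · rw [dl_eq, ← psi_dl G0 K W hl hN]
    refine dl_congr fun D' h1 _ => ?_
    rw [if_pos]
    omega

/-- **Block GLOB.** -/
theorem main_of_neck (G0 : GlobGeo Γ) (hN : 2 ≤ N) (Sy : Sys Γ N) (K : Neck Sy) :
    ∃ (ψ : List G → ℝ) (M : ℝ), (∀ Y, Γ.Generic Y → Y.length = N + 1 → |ψ Y| ≤ M) ∧
      (∀ (g : G) Y, ψ (Y.map (g * ·)) = ψ Y) ∧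
      ∀ W, Γ.Generic W → W.length = N + 2 → Helper11.BC.dl ψ W = Sy.fW (W.map GP.int) := by
  obtain ⟨M, h1, h2, h3⟩ := main_psi G0 hN Sy K
  exact ⟨fun Y => if Y.length = N + 1 then psi G0 K Y else 0, M, h1, h2, h3⟩

end Pool.Agent.Helper17.BRG
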