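import Mathlib
import Pool.Agent.Helper17.BRG.Glob
import Pool.Agent.Helper59.BR.MeasDefs

/-!
# Project BR, block MEAS: the primitive of the block GLOB is measurable
-/

set_option autoImplicit false

open MeasureTheory Topology

namespace Pool.Agent.Helper17.BRG

open Pool.Agent.Helper17.BC
open Pool.Agent.Helper17.BR (d_self d_comm d_tri d_nonneg d_mul rho_nonneg dg_neg)
open Pool.Agent.Helper11.BR (GP R1 Sys Neck GlobGeo)
open Pool.Agent.Helper59.BR (NeckMeas GlobMeas ML)

variable {G : Type} [Group G] [TopologicalSpace G] {Γ : R1 G}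

/-! ### Lipschitz functions on lists -/

/-- the sum of the distances of the entries -/
noncomputable def ds (Γ : R1 G) : List G → List G → ℝ
  | [], _ => 0
  | _, [] => 0
  | a :: l, b :: m => Γ.d a b + ds Γ l m

theorem lip_list {φ : List G → ℝ} {C : ℝ} {L : ℕ}
    (h : ∀ (l₁ l₂ : List G) (g k : G), (l₁ ++ g :: l₂).length = L →
      |φ (l₁ ++ g :: l₂) - φ (l₁ ++ k :: l₂)| ≤ C * Γ.d g k) (v : List G) :
    ∀ (w p : List G), w.length = v.length → (p ++ v).length = L →
      |φ (p ++ v) - φ (p ++ w)| ≤ C * ds Γ v w := by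
  induction v with
  | nil =>
    intro w p hw _
    rw [List.length_nil, List.length_eq_zero_iff] at hw
    subst hw
    simp [ds]
  | cons a v ih =>
    intro w p hw hp
    obtain ⟨b, w, rfl⟩ := List.exists_cons_of_length_eq_add_one (n := v.length) hw
    have h1 := h p v a b hp
    have h2 := ih w (p ++ [b]) (by simpa using hw) (by
      simp only [List.length_append, List.length_cons, List.length_nil] at hp ⊢
      omega)
    rw [List.append_assoc, List.append_assoc, List.singleton_append, List.singleton_append] at h2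
    have e1 : ds Γ (a :: v) (b :: w) = Γ.d a b + ds Γ v w := rfl
    rw [e1, mul_add]
    calc _ = |(φ (p ++ a :: v) - φ (p ++ b :: v)) + (φ (p ++ b :: v) - φ (p ++ b :: w))| := by
          congr 1
          ring
      _ ≤ _ := abs_add_le _ _
      _ ≤ _ := add_le_add h1 h2

section

variable [IsTopologicalGroup G] [SecondCountableTopology G] [MeasurableSpace G] [BorelSpace G]

theorem meas_d {Z : Type} [MeasurableSpace Z] {s t : Z → G} (hs : Measurable s)
    (ht : Measurable t) : Measurable fun z => Γ.d (s z) (t z) :=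
  Γ.rho_cont.measurable.comp (hs.inv.mul ht)

theorem meas_ln {Z : Type} [MeasurableSpace Z] {n : Z → G} {a : Z → ℝ} (hn : Measurable n)
    (ha : Measurable a) : Measurable fun z => Γ.ln (n z) (a z) :=
  hn.mul (Γ.dg_cont.measurable.comp ha)

omit [SecondCountableTopology G] [MeasurableSpace G] [BorelSpace G] in
theorem ds_cont {P : Type} [TopologicalSpace P] (C : List (P → G)) (w : List G)
    (hC : ∀ c ∈ C, Continuous c) : Continuous fun p => ds Γ (C.map fun c => c p) w := by
  induction C generalizing w with
  | nil => exact continuous_const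
  | cons c C ih =>
    cases w with
    | nil => exact continuous_const
    | cons b w =>
      have hc : Continuous c := hC c (by simp)
      have h1 : Continuous fun p => Γ.d (c p) b :=
        Γ.rho_cont.comp (hc.inv.mul continuous_const)
      exact h1.add (ih w fun c' h => hC c' (List.mem_cons_of_mem c h))

omit [IsTopologicalGroup G] [SecondCountableTopology G] [MeasurableSpace G] [BorelSpace G] in
theorem ds_self (w : List G) : ds Γ w w = 0 := by
  induction w with
  | nil => rfl
  | cons a w ih =>
    have e1 : ds Γ (a :: w) (a :: w) = Γ.d a a + ds Γ w w := rfl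
    rw [e1, d_self, ih, add_zero]

omit [IsTopologicalGroup G] [SecondCountableTopology G] [MeasurableSpace G] [BorelSpace G] in
theorem ds_nonneg (v : List G) : ∀ w : List G, 0 ≤ ds Γ v w := by
  induction v with
  | nil => intro w; exact le_rfl
  | cons a v ih =>
    intro w
    cases w with
    | nil => exact le_rfl
    | cons b w => exact add_nonneg (d_nonneg Γ a b) (ih w)

/-- a function on lists which is locally Lipschitz is measurable -/
theorem meas_of_ds {φ : List G → ℝ} {L : ℕ}
    (h : ∀ w : List G, w.length = L → ∃ C : ℝ, ∀ v : List G, v.length = L →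
      |φ v - φ w| ≤ C * ds Γ v w) {Z : Type} [MeasurableSpace Z]
    (D : List (Z → G)) (hD : ∀ c ∈ D, Measurable c) (hl : D.length = L) :
    Measurable fun z => φ (D.map fun c => c z) := by
  subst hl
  have h1 : Continuous fun x : Fin D.length → G => φ (List.ofFn x) := by
    rw [continuous_iff_continuousAt]
    intro x₀
    obtain ⟨C, hC⟩ := h (List.ofFn x₀) (by simp)
    rw [ContinuousAt, tendsto_iff_dist_tendsto_zero]
    have h2 : Continuous fun x : Fin D.length → G => C * ds Γ (List.ofFn x) (List.ofFn x₀) := by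
      have h3 := ds_cont (Γ := Γ) (List.ofFn fun (i : Fin D.length) (x : Fin D.length → G) => x i)
        (List.ofFn x₀) fun c hc => by
          obtain ⟨i, rfl⟩ := (List.mem_ofFn' _ _).1 hc
          exact continuous_apply i
      simp only [List.map_ofFn] at h3
      exact continuous_const.mul h3
    have h4 := h2.tendsto x₀
    rw [ds_self, mul_zero] at h4
    refine squeeze_zero (fun _ => dist_nonneg) (fun x => ?_) h4
    rw [Real.dist_eq]
    exact hC (List.ofFn x) (by simp)
  have h2 : Measurable fun (z : Z) (i : Fin D.length) => D.get i z :=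
    measurable_pi_lambda _ fun i => hD _ (List.get_mem _ _)
  have h3 := h1.measurable.comp h2
  have h4 : (fun z => φ (D.map fun c => c z)) =
      (fun x : Fin D.length → G => φ (List.ofFn x)) ∘ fun z i => D.get i z := by
    funext z
    simp only [Function.comp_apply]
    congr 1
    apply List.ext_getElem
    · simp
    · intro i h5 h6
      simp
  rw [h4]
  exact h3

variable {N : ℕ}

theorem meas_f0 (Sy : Sys Γ N) {Z : Type} [MeasurableSpace Z] {s : Z → G} (hs : Measurable s)
    (D : List (Z → G)) (hD : ∀ c ∈ D, Measurable c) (hl : D.length = N + 1) :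
    Measurable fun z => Sy.f0 (s z) ((D.map fun c => c z).map GP.int) := by
  obtain ⟨φ, hφ⟩ : ∃ φ : List G → ℝ, φ = fun l => match l with
    | [] => 0
    | s :: Y => Sy.f0 s (Y.map GP.int) := ⟨_, rfl⟩
  have h1 := meas_of_ds (Γ := Γ) (φ := φ) (L := N + 2) (fun w hw => ⟨Sy.C, fun v hv => by
    have h2 := lip_list (φ := φ) (C := Sy.C) (L := N + 2) (Γ := Γ) (fun l₁ l₂ g k hl => by
      cases l₁ with
      | nil =>
        rw [hφ]
        exact Sy.f0_lip_left g k (l₂.map GP.int) (by
          simp only [List.nil_append, List.length_cons] at hl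
          rw [List.length_map]
          omega)
      | cons x l₁ =>
        rw [hφ]
        have h3 := Sy.f0_lip (l₁.map GP.int) (l₂.map GP.int) g k x (by
          simp only [List.length_append, List.length_cons, List.length_map] at hl ⊢
          omega)
        simpa [List.map_append] using h3) v w [] (by rw [hw, hv]) (by simpa using hv)
    simpa using h2⟩) (s :: D) (fun c hc => by
      rcases List.mem_cons.1 hc with rfl | hc
      · exact hs
      · exact hD c hc) (by rw [List.length_cons, hl])
  rw [hφ] at h1
  exact h1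

theorem meas_F (Sy : Sys Γ N) {Z : Type} [MeasurableSpace Z] {s t : Z → G} (hs : Measurable s)
    (ht : Measurable t) (D : List (Z → G)) (hD : ∀ c ∈ D, Measurable c) (hl : D.length = N) :
    Measurable fun z => Sy.F ((D.map fun c => c z).map GP.int) (s z) (t z) := by
  obtain ⟨φ, hφ⟩ : ∃ φ : List G → ℝ, φ = fun l => match l with
    | [] => 0
    | [_] => 0
    | s :: t :: Y => Sy.F (Y.map GP.int) s t := ⟨_, rfl⟩
  have h1 := meas_of_ds (Γ := Γ) (φ := φ) (L := N + 2) (fun w hw => by
    obtain ⟨s₀, w, rfl⟩ := List.exists_cons_of_length_eq_add_one hw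
    obtain ⟨t₀, w, rfl⟩ := List.exists_cons_of_length_eq_add_one (n := N) (by simpa using hw)
    have hw' : w.length = N := by simpa using hw
    have hC := Sy.one_le_C
    refine ⟨Sy.C + Sy.C * Γ.d s₀ t₀, fun v hv => ?_⟩
    obtain ⟨s, v, rfl⟩ := List.exists_cons_of_length_eq_add_one hv
    obtain ⟨t, v, rfl⟩ := List.exists_cons_of_length_eq_add_one (n := N) (by simpa using hv)
    have hv' : v.length = N := by simpa using hv
    have hv'' : (v.map (GP.int (G := G))).length = N := by rwa [List.length_map]
    have h2 := lip_list (φ := fun Y => Sy.F (Y.map GP.int) s₀ t₀) (C := Sy.C * Γ.d s₀ t₀) (L := N)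
      (Γ := Γ) (fun l₁ l₂ g k hl => by
        have h3 := Sy.F_lip (l₁.map GP.int) (l₂.map GP.int) g k s₀ t₀ (by
          simp only [List.length_append, List.length_cons, List.length_map] at hl ⊢
          omega)
        simpa [List.map_append] using h3) v w [] (by rw [hw', hv']) (by simpa using hv')
    rw [List.nil_append, List.nil_append] at h2
    have e1 : ds Γ (s :: t :: v) (s₀ :: t₀ :: w) = Γ.d s s₀ + (Γ.d t t₀ + ds Γ v w) := rfl
    have a1 := Sy.F_add (v.map GP.int) s s₀ t hv''
    have a2 := Sy.F_add (v.map GP.int) s₀ t₀ t hv''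
    have g1 := abs_le.1 (Sy.F_growth (v.map GP.int) s s₀ hv'')
    have g2 := abs_le.1 (Sy.F_growth (v.map GP.int) t₀ t hv'')
    rw [d_comm Γ t₀ t] at g2
    have h2 := abs_le.1 h2
    have hds := ds_nonneg (Γ := Γ) v w
    have hd0 := d_nonneg Γ s₀ t₀
    have hd1 := d_nonneg Γ s s₀
    have hd2 := d_nonneg Γ t t₀
    have k1 : 0 ≤ Sy.C * ds Γ v w := by positivity
    have k2 : 0 ≤ Sy.C * Γ.d s₀ t₀ * Γ.d s s₀ := by positivity
    have k3 : 0 ≤ Sy.C * Γ.d s₀ t₀ * Γ.d t t₀ := by positivity
    rw [hφ, e1]
    show |Sy.F (v.map GP.int) s t - Sy.F (w.map GP.int) s₀ t₀| ≤ _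
    rw [abs_le]
    constructor <;> nlinarith) (s :: t :: D) (fun c hc => by
      rcases List.mem_cons.1 hc with rfl | hc
      · exact hs
      rcases List.mem_cons.1 hc with rfl | hc
      · exact ht
      · exact hD c hc) (by rw [List.length_cons, List.length_cons, hl])
  rw [hφ] at h1
  exact h1

/-! ### sums over pieces and faces -/

omit [Group G] [TopologicalSpace G] [IsTopologicalGroup G] [SecondCountableTopology G]
  [BorelSpace G] in
theorem meas_S {Z : Type} [MeasurableSpace Z] {q : Z → G → ℝ} (C : List (Z → G)) :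
    ∀ (Φ : Z → List (G × Bool) → ℝ → ℝ → ℝ), (∀ c ∈ C, Measurable c) →
    (∀ c ∈ C, Measurable fun z => q z (c z)) →
    (∀ (D : List ((Z → G) × Bool)) (a b : Z → ℝ), (∀ x ∈ D, Measurable x.1) →
      D.length = C.length → Measurable a → Measurable b →
      Measurable fun z => Φ z (D.map fun x => (x.1 z, x.2)) (a z) (b z)) →
    ∀ α β : Z → ℝ, Measurable α → Measurable β →
    Measurable fun z => S (q z) (Φ z) (α z) (β z) (C.map fun c => c z) := by
  induction C with
  | nil =>
    intro Φ _ _ hΦ α β hα hβ
    exact hΦ [] α β (by simp) rfl hα hβ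
  | cons c C ih =>
    intro Φ hC hq hΦ α β hα hβ
    have hC' : ∀ c ∈ C, Measurable c := fun c' h => hC c' (List.mem_cons_of_mem c h)
    have hq' : ∀ c ∈ C, Measurable fun z => q z (c z) :=
      fun c' h => hq c' (List.mem_cons_of_mem c h)
    have hc : Measurable fun z => cp (α z) (β z) (q z (c z)) :=
      hα.max (hβ.min (hq c (by simp)))
    have key : ∀ m : Bool, ∀ (D : List ((Z → G) × Bool)) (a b : Z → ℝ), (∀ x ∈ D, Measurable x.1) →
        D.length = C.length → Measurable a → Measurable b →
        Measurable fun z => Φ z ((c z, m) :: D.map fun x => (x.1 z, x.2)) (a z) (b z) := by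
      intro m D a b hD hl ha hb
      exact hΦ ((c, m) :: D) a b (fun x hx => by
        rcases List.mem_cons.1 hx with rfl | hx
        · exact hC c (by simp)
        · exact hD x hx) (by rw [List.length_cons, List.length_cons, hl]) ha hb
    simp only [List.map_cons, S]
    exact (ih (fun z D => Φ z ((c z, false) :: D)) hC' hq' (key false) _ β hc hβ).add
      (ih (fun z D => Φ z ((c z, true) :: D)) hC' hq' (key true) α _ hα hc)

omit [Group G] [TopologicalSpace G] [IsTopologicalGroup G] [SecondCountableTopology G]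
  [BorelSpace G] in
theorem meas_dl {Z : Type} [MeasurableSpace Z] (C : List (Z → G)) :
    ∀ (φ : Z → List G → ℝ), (∀ c ∈ C, Measurable c) →
    (∀ D : List (Z → G), (∀ c ∈ D, Measurable c) → D.length + 1 = C.length →
      Measurable fun z => φ z (D.map fun c => c z)) →
    Measurable fun z => dl (φ z) (C.map fun c => c z) := by
  induction C with
  | nil =>
    intro φ _ _
    exact measurable_const
  | cons c C ih =>
    intro φ hC hφ
    have hC' : ∀ c ∈ C, Measurable c := fun c' h => hC c' (List.mem_cons_of_mem c h)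
    simp only [List.map_cons, dl]
    refine (hφ C hC' (by simp)).sub (ih (fun z D => φ z (c z :: D)) hC' fun D hD hl => ?_)
    exact hφ (c :: D) (fun x hx => by
      rcases List.mem_cons.1 hx with rfl | hx
      · exact hC _ (by simp)
      · exact hD x hx) (by rw [List.length_cons, List.length_cons, hl])

/-! ### the functions of the block GLOB -/

variable [T2Space G]

theorem meas_mks {Z : Type} [MeasurableSpace Z] (D : List ((Z → G) × Bool))
    (hD : ∀ x ∈ D, Measurable x.1) {c : Z → G} (hc : Measurable c) :
    MeasurableSet {z | c z ∈ mks (D.map fun x => (x.1 z, x.2))} := by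
  have e1 : {z | c z ∈ mks (D.map fun x => (x.1 z, x.2))} =
      {z | ∃ x ∈ D, x.1 z = c z ∧ x.2 = true} := by
    ext z
    simp only [Set.mem_ofPred_eq, mem_mks, List.mem_map, Prod.mk.injEq]
  rw [e1]
  clear e1
  induction D with
  | nil => simp
  | cons y D ih =>
    have e2 : {z | ∃ x ∈ y :: D, x.1 z = c z ∧ x.2 = true} =
        {z | y.1 z = c z ∧ y.2 = true} ∪ {z | ∃ x ∈ D, x.1 z = c z ∧ x.2 = true} := by
      ext z
      simp only [Set.mem_ofPred_eq, List.mem_cons, Set.mem_union]
      constructor
      · rintro ⟨x, rfl | hx, h⟩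
        · exact Or.inl h
        · exact Or.inr ⟨x, hx, h⟩
      · rintro (h | ⟨x, hx, h⟩)
        · exact ⟨y, Or.inl rfl, h⟩
        · exact ⟨x, Or.inr hx, h⟩
    rw [e2]
    refine MeasurableSet.union ?_ (ih fun x hx => hD x (List.mem_cons_of_mem y hx))
    have h1 : MeasurableSet {z | y.1 z = c z} :=
      isClosed_diagonal.measurableSet.preimage ((hD y (by simp)).prodMk hc)
    by_cases h2 : y.2 = true
    · simpa [h2] using h1
    · simp [h2]

variable {Sy : Sys Γ N} {G0 : GlobGeo Γ} {K : Neck Sy} (hg : GlobMeas G0) (hK : NeckMeas K)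

include hg hK

theorem meas_gn {Z : Type} [MeasurableSpace Z] {n : Z → G} {α β : Z → ℝ} (hn : Measurable n)
    (hα : Measurable α) (hβ : Measurable β) (C : List (Z → G)) (hC : ∀ c ∈ C, Measurable c) :
    Measurable fun z => gn G0 K (n z) (α z) (β z) (C.map fun c => c z) := by
  unfold gn
  refine meas_S C (fun z => Ph K (n z)) hC (fun c hc => hg.prj Z α β n c hα hβ hn (hC c hc))
    (fun D a b hD _ ha hb => ?_) α β hα hβ
  by_cases h : D.length + 1 = N
  · have e1 : (fun z => Ph K (n z) (D.map fun x => (x.1 z, x.2)) (a z) (b z)) = fun z =>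
        K.gt (n z) (mks (D.map fun x => (x.1 z, x.2))) ((D.map Prod.fst).map fun c => c z)
          (Γ.ln (n z) (a z)) (Γ.ln (n z) (b z)) := by
      funext z
      rw [Ph_eq K (n z) (by rwa [List.length_map]), List.map_map, List.map_map]
      rfl
    rw [e1]
    refine hK Z n _ _ _ _ hn (meas_ln hn ha) (meas_ln hn hb) (by rwa [List.length_map])
      fun c hc => ?_
    obtain ⟨x, hx, rfl⟩ := List.mem_map.1 hc
    exact ⟨hD x hx, meas_mks D hD (hD x hx)⟩
  · have e1 : (fun z => Ph K (n z) (D.map fun x => (x.1 z, x.2)) (a z) (b z)) = fun _ => 0 := by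
      funext z
      unfold Ph
      rw [List.length_map, if_neg h]
    rw [e1]
    exact measurable_const

theorem meas_gg {Z : Type} [MeasurableSpace Z] {s t : Z → G} (hs : Measurable s)
    (ht : Measurable t) (C : List (Z → G)) (hC : ∀ c ∈ C, Measurable c) :
    Measurable fun z => gg G0 K (C.map fun c => c z) (s z) (t z) := by
  have key : ∀ s t : Z → G, Measurable s → Measurable t →
      Measurable fun z => g1 G0 K (s z) (t z) (C.map fun c => c z) := by
    intro s t hs ht
    exact meas_gn hg hK (hg.fr Z s t hs ht) measurable_const (meas_d hs ht) C hC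
  exact ((key s t hs ht).sub (key t s ht hs)).div_const 2

theorem meas_fg {Z : Type} [MeasurableSpace Z] {s : Z → G} (hs : Measurable s)
    (C : List (Z → G)) (hC : ∀ c ∈ C, Measurable c) :
    Measurable fun z => fg G0 K (C.map fun c => c z) (s z) := by
  cases C with
  | nil => exact meas_gg hg hK measurable_const hs [] hC
  | cons c C => exact meas_gg hg hK (hC c (by simp)) hs (c :: C) hC

theorem meas_E {Z : Type} [MeasurableSpace Z] {s t : Z → G} (hs : Measurable s)
    (ht : Measurable t) (C : List (Z → G)) (hC : ∀ c ∈ C, Measurable c) (hl : C.length = N) :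
    Measurable fun z => E G0 K (C.map fun c => c z) (s z) (t z) :=
  (meas_F Sy hs ht C hC hl).sub (meas_dl C
    (fun z C' => fg G0 K C' (t z) - fg G0 K C' (s z)) hC fun D hD _ =>
    (meas_fg hg hK ht D hD).sub (meas_fg hg hK hs D hD))

/-- **Block MEAS-GLOB.** -/
theorem main_of_neck_meas (hN : 2 ≤ N) :
    ∃ (ψ : List G → ℝ) (M : ℝ), ML ψ ∧
      (∀ Y, Γ.Generic Y → Y.length = N + 1 → |ψ Y| ≤ M) ∧
      (∀ (g : G) Y, ψ (Y.map (g * ·)) = ψ Y) ∧
      ∀ W, Γ.Generic W → W.length = N + 2 → Helper11.BC.dl ψ W = Sy.fW (W.map GP.int) := by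
  obtain ⟨M, h1, h2, h3⟩ := main_psi G0 hN Sy K
  refine ⟨fun Y => if Y.length = N + 1 then psi G0 K Y else 0, M, fun Z _ C hC => ?_, h1, h2, h3⟩
  by_cases hl : C.length = N + 1
  · have hl' : ∀ z, (C.map fun c => c z).length = N + 1 := fun z => by rwa [List.length_map]
    simp only [hl', if_true]
    obtain ⟨c₁, C, rfl⟩ := List.exists_cons_of_length_eq_add_one hl
    obtain ⟨c₂, C, rfl⟩ := List.exists_cons_of_length_eq_add_one (n := N - 1) (l := C)
      (by simp only [List.length_cons] at hl; omega)
    have m1 := meas_f0 Sy (hC c₁ (by simp)) (c₁ :: c₂ :: C) hC hl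
    have m2 := meas_E hg hK (hC c₂ (by simp)) (hC c₁ (by simp)) (c₂ :: C)
      (fun c hc => hC c (List.mem_cons_of_mem _ hc)) (by simpa using hl)
    exact m1.add m2
  · have hl' : ∀ z, ¬ (C.map fun c => c z).length = N + 1 := fun z => by rwa [List.length_map]
    simp only [hl', if_false]
    exact measurable_const

end

end Pool.Agent.Helper17.BRG
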