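import Pool.Agent.Helper17.BRG.Close

/-!
# Project BR, block GLOB: the function `gg C' s t`
-/

set_option autoImplicit false

namespace Pool.Agent.Helper17.BRG

open Pool.Agent.Helper17.BC
open Pool.Agent.Helper17.BR (d_self d_comm d_tri d_nonneg d_mul rho_nonneg dg_neg)
open Pool.Agent.Helper11.BR (GP R1 Sys Neck GlobGeo)

variable {G : Type} [Group G] [TopologicalSpace G] {Γ : R1 G}

theorem ln_flip (n : G) (τ : ℝ) : Γ.d (Γ.ln (n * Γ.flip) τ) (Γ.ln n (-τ)) = 0 := by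
  unfold R1.d R1.ln
  have e1 : (n * Γ.flip * Γ.dg τ)⁻¹ * (n * Γ.dg (-τ)) = Γ.flip⁻¹ := by
    rw [mul_assoc n, Γ.flip_dg]
    group
  rw [e1, Γ.rho_inv, Γ.rho_flip]

theorem d_congr_right' {x y z : G} (h : Γ.d y z = 0) : Γ.d x y = Γ.d x z :=
  Helper17.BR.d_congr_right Γ h

variable {N : ℕ} {Sy : Sys Γ N} (G0 : GlobGeo Γ) (K : Neck Sy)

/-- the function along the segment from `s` to `t` -/
noncomputable def g1 (s t : G) (C : List G) : ℝ := gn G0 K (G0.fr s t) 0 (Γ.d s t) C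

/-- the antisymmetric version -/
noncomputable def gg (C : List G) (s t : G) : ℝ := (g1 G0 K s t C - g1 G0 K t s C) / 2

theorem gg_anti (C : List G) (s t : G) : gg G0 K C t s = -gg G0 K C s t := by
  unfold gg
  ring

theorem gg_neck (C : List G) (hC : Γ.Generic C) (hl : C.length = N) (s t : G) :
    |Sy.F (C.map GP.int) s t - dl (fun C' => gg G0 K C' s t) C| ≤ 2 ^ N * K.K + Sy.C := by
  have e1 : ∀ s t : G, |Sy.F (C.map GP.int) s t - dl (fun C' => g1 G0 K s t C') C| ≤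
      2 ^ N * K.K + Sy.C := by
    intro s t
    have hl' : (C.map GP.int).length = N := by rwa [List.length_map]
    have h := gn_neck G0 K (G0.fr s t) (d_nonneg Γ s t) C hC hl
    have h1 := Sy.F_add (C.map GP.int) s (Γ.ln (G0.fr s t) 0) t hl'
    have h2 := Sy.F_add (C.map GP.int) (Γ.ln (G0.fr s t) 0) (Γ.ln (G0.fr s t) (Γ.d s t)) t hl'
    have h3 := Sy.F_growth (C.map GP.int) s (Γ.ln (G0.fr s t) 0) hl'
    have h4 := Sy.F_growth (C.map GP.int) (Γ.ln (G0.fr s t) (Γ.d s t)) t hl'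
    rw [d_comm, G0.fr_zero, mul_zero] at h3
    have hC1 := Sy.one_le_C
    have h5 : Sy.C * Γ.d (Γ.ln (G0.fr s t) (Γ.d s t)) t ≤ Sy.C * 1 :=
      mul_le_mul_of_nonneg_left (G0.fr_dist s t) (by linarith)
    have h3 := abs_le.1 h3
    have h4 := abs_le.1 (h4.trans h5)
    have h6 := abs_le.1 h
    unfold g1
    rw [abs_le]
    constructor <;> linarith
  have e2 : dl (fun C' => gg G0 K C' s t) C =
      1 / 2 * (dl (fun C' => g1 G0 K s t C') C - dl (fun C' => g1 G0 K t s C') C) := by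
    rw [← dl_sub, ← dl_mul]
    refine dl_congr fun D' _ _ => ?_
    unfold gg
    ring
  have h2 := Sy.F_add (C.map GP.int) s t s (by rwa [List.length_map])
  have h3 := Sy.F_add (C.map GP.int) s s s (by rwa [List.length_map])
  have h4 := abs_le.1 (e1 s t)
  have h5 := abs_le.1 (e1 t s)
  rw [e2, abs_le]
  constructor <;> linarith

theorem g1_close (C₀ : ℝ) : ∃ K₀ : ℝ, ∀ (n : G) (α β : ℝ) (s t : G) (C : List G),
    α ≤ β → Γ.Generic C → C.length + 1 = N → Γ.d (Γ.ln n α) s ≤ C₀ → Γ.d (Γ.ln n β) t ≤ C₀ →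
    |gn G0 K n α β C - g1 G0 K s t C| ≤ K₀ := by
  obtain ⟨K₀, h⟩ := gn_close G0 K (C₀ + 1)
  refine ⟨K₀, fun n α β s t C h1 hC hl hs ht => ?_⟩
  refine h n (G0.fr s t) α β 0 (Γ.d s t) C h1 (d_nonneg Γ _ _) hC hl ?_ ?_
  · have h2 := d_tri Γ (Γ.ln n α) s (Γ.ln (G0.fr s t) 0)
    rw [d_comm Γ s, G0.fr_zero] at h2
    linarith
  · have h2 := d_tri Γ (Γ.ln n β) t (Γ.ln (G0.fr s t) (Γ.d s t))
    rw [d_comm Γ t] at h2
    have h3 := G0.fr_dist s t
    linarith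

/-- the function is invariant -/
theorem g1_inv (h s t : G) (C : List G) (hl : C.length + 1 = N) :
    g1 G0 K (h * s) (h * t) (C.map (h * ·)) = g1 G0 K s t C := by
  unfold g1
  rw [G0.fr_mul, d_mul, gn_inv G0 K h _ _ _ C hl]

theorem gg_inv (h s t : G) (C : List G) (hl : C.length + 1 = N) :
    gg G0 K (C.map (h * ·)) (h * s) (h * t) = gg G0 K C s t := by
  unfold gg
  rw [g1_inv G0 K h s t C hl, g1_inv G0 K h t s C hl]

/-- cutting a segment, one direction -/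
theorem g1_split (C₀ : ℝ) : ∃ K₀ : ℝ, ∀ (s t o : G) (a : ℝ) (C : List G),
    0 ≤ a → a ≤ Γ.d s t → Γ.Generic C → C.length + 1 = N → Γ.d (Γ.ln (G0.fr s t) a) o ≤ C₀ →
    |g1 G0 K s t C - g1 G0 K s o C - g1 G0 K o t C| ≤ K₀ := by
  obtain ⟨K₀, hK₀⟩ := g1_close G0 K (max C₀ 1)
  refine ⟨2 * K₀, fun s t o a C ha ha' hC hl ho => ?_⟩
  have e1 : g1 G0 K s t C = gn G0 K (G0.fr s t) 0 a C + gn G0 K (G0.fr s t) a (Γ.d s t) C :=
    gn_add G0 K _ ha ha' C
  have h1 := abs_le.1 (hK₀ (G0.fr s t) 0 a s o C ha hC hl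
    (by rw [G0.fr_zero]; exact zero_le_one.trans (le_max_right _ _)) (ho.trans (le_max_left _ _)))
  have h2 := abs_le.1 (hK₀ (G0.fr s t) a (Γ.d s t) o t C ha' hC hl (ho.trans (le_max_left _ _))
    ((G0.fr_dist s t).trans (le_max_right _ _)))
  rw [e1, abs_le]
  constructor <;> linarith

/-- cutting a segment -/
theorem gg_split (C₀ : ℝ) : ∃ K₀ : ℝ, ∀ (s t o : G) (a : ℝ) (C : List G),
    0 ≤ a → a ≤ Γ.d s t → Γ.Generic C → C.length + 1 = N → Γ.d (Γ.ln (G0.fr s t) a) o ≤ C₀ →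
    |gg G0 K C s t - gg G0 K C s o - gg G0 K C o t| ≤ K₀ := by
  obtain ⟨R, hR⟩ := G0.fellow 1
  obtain ⟨K₁, hK₁⟩ := g1_split G0 K C₀
  obtain ⟨K₂, hK₂⟩ := g1_split G0 K (R + C₀)
  refine ⟨(K₁ + K₂) / 2, fun s t o a C ha ha' hC hl ho => ?_⟩
  have h1 := abs_le.1 (hK₁ s t o a C ha ha' hC hl ho)
  have hd := d_comm Γ t s
  have h2 : Γ.d (Γ.ln (G0.fr t s) (Γ.d t s - a)) o ≤ R + C₀ := by
    have h3 := hR (G0.fr t s) (G0.fr s t * Γ.flip) 0 (Γ.d t s) (-(Γ.d t s)) 0 (d_nonneg Γ _ _)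
      (by have := d_nonneg Γ t s; linarith)
      (by
        rw [d_congr_right' (ln_flip (G0.fr s t) _), neg_neg, hd]
        have h4 := d_tri Γ (Γ.ln (G0.fr t s) 0) t (Γ.ln (G0.fr s t) (Γ.d s t))
        rw [G0.fr_zero, d_comm Γ t] at h4
        have := G0.fr_dist s t
        linarith)
      (by
        rw [d_congr_right' (ln_flip (G0.fr s t) _), neg_zero]
        have h4 := d_tri Γ (Γ.ln (G0.fr t s) (Γ.d t s)) s (Γ.ln (G0.fr s t) 0)
        rw [d_comm Γ s (Γ.ln (G0.fr s t) 0), G0.fr_zero] at h4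
        have := G0.fr_dist t s
        linarith) (Γ.d t s - a)
      (by rw [hd]; linarith) (by linarith) (by linarith)
    rw [zero_add, show -(Γ.d t s) + (Γ.d t s - a) = -a by ring,
      d_congr_right' (ln_flip (G0.fr s t) _), neg_neg] at h3
    exact (d_tri Γ _ _ _).trans (add_le_add h3 ho)
  have h4 := abs_le.1 (hK₂ t s o (Γ.d t s - a) C (by rw [hd]; linarith)
    (by linarith) hC hl h2)
  unfold gg
  rw [abs_le]
  constructor <;> linarith

/-- triangles -/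
theorem gg_tri : ∃ K₀ : ℝ, ∀ (s t u : G) (C : List G), Γ.Generic C → C.length + 1 = N →
    |gg G0 K C s t + gg G0 K C t u + gg G0 K C u s| ≤ K₀ := by
  obtain ⟨R, hR⟩ := G0.centre
  obtain ⟨K₁, hK₁⟩ := gg_split G0 K R
  refine ⟨3 * K₁, fun s t u C hC hl => ?_⟩
  obtain ⟨o, a, b, c, ha, ha', hb, hb', hc, hc', h1, h2, h3⟩ := hR s t u (G0.fr s t) (G0.fr t u)
    (G0.fr u s) ((G0.fr_zero _ _).le.trans zero_le_one) (G0.fr_dist _ _)
    ((G0.fr_zero _ _).le.trans zero_le_one) (G0.fr_dist _ _)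
    ((G0.fr_zero _ _).le.trans zero_le_one) (G0.fr_dist _ _)
  have e1 := abs_le.1 (hK₁ s t o a C ha ha' hC hl (by rwa [d_comm]))
  have e2 := abs_le.1 (hK₁ t u o b C hb hb' hC hl (by rwa [d_comm]))
  have e3 := abs_le.1 (hK₁ u s o c C hc hc' hC hl (by rwa [d_comm]))
  have f1 := gg_anti G0 K C s o
  have f2 := gg_anti G0 K C t o
  have f3 := gg_anti G0 K C u o
  rw [abs_le]
  constructor <;> linarith

end Pool.Agent.Helper17.BRG
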